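import Pool.Agent.Lib.MP_43d240_ag.H99.Lattice

/-!
# Project PI, chapter LOC, step 1: freeness of the reflexive lattice
-/

set_option autoImplicit false
set_option linter.unusedVariables false
set_option linter.unusedSectionVars false

open Matrix

namespace Pool.Agent.PI.H99

section

variable {R K : Type} [CommRing R] [IsDomain R] [UniqueFactorizationMonoid R] [Field K]
  [Algebra R K] {n : ℕ} {PP : R → Matrix (Fin n) (Fin n) K} {c : R}

theorem isFrac (h : FracMap (algebraMap R K)) : IsFractionRing R K where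
  map_units y := isUnit_iff_ne_zero.2 (h.ne_zero.2 (nonZeroDivisors.ne_zero y.2))
  surj z := by
    obtain ⟨a, s, hs, h2⟩ := h.2 z
    refine ⟨(a, ⟨s, mem_nonZeroDivisors_of_ne_zero (h.ne_zero.1 hs)⟩), ?_⟩
    simp only
    rw [mul_comm]
    exact h2
  exists_of_eq {x y} hxy := ⟨1, by rw [h.1 hxy]⟩

theorem quot_pid [IsLocalRing R] [IsNoetherianRing R] {Z g : R} (hg : Prime g)
    (hm : IsLocalRing.maximalIdeal R = Ideal.span {Z, g}) :
    IsPrincipalIdealRing (R ⧸ Ideal.span {g}) := by
  have hP : (Ideal.span {g}).IsPrime := (Ideal.span_singleton_prime hg.ne_zero).2 hg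
  have : IsDomain (R ⧸ Ideal.span {g}) := inferInstance
  have : IsLocalRing (R ⧸ Ideal.span {g}) :=
    IsLocalRing.of_surjective' (Ideal.Quotient.mk _) Ideal.Quotient.mk_surjective
  have hmax : IsLocalRing.maximalIdeal (R ⧸ Ideal.span {g}) =
      Ideal.span {Ideal.Quotient.mk _ Z} := by
    apply le_antisymm
    · intro x hx
      obtain ⟨r, rfl⟩ := Ideal.Quotient.mk_surjective x
      have hr : r ∈ IsLocalRing.maximalIdeal R := by
        rw [IsLocalRing.mem_maximalIdeal, mem_nonunits_iff]
        intro hu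
        rw [IsLocalRing.mem_maximalIdeal, mem_nonunits_iff] at hx
        exact hx (hu.map _)
      rw [hm, Ideal.mem_span_pair] at hr
      obtain ⟨a, b, rfl⟩ := hr
      rw [Ideal.mem_span_singleton]
      refine ⟨Ideal.Quotient.mk _ a, ?_⟩
      have : Ideal.Quotient.mk (Ideal.span {g}) g = 0 :=
        Ideal.Quotient.eq_zero_iff_mem.2 (Ideal.mem_span_singleton_self g)
      rw [map_add, map_mul, map_mul, this]
      ring
    · rw [Ideal.span_singleton_le_iff_mem, IsLocalRing.mem_maximalIdeal, mem_nonunits_iff]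
      intro hu
      obtain ⟨y, hy⟩ := hu.exists_right_inv
      obtain ⟨r, rfl⟩ := Ideal.Quotient.mk_surjective y
      rw [← map_mul, ← map_one (Ideal.Quotient.mk _), Ideal.Quotient.eq,
        Ideal.mem_span_singleton] at hy
      obtain ⟨t, ht⟩ := hy
      have h1 : (1 : R) ∈ IsLocalRing.maximalIdeal R := by
        rw [hm, Ideal.mem_span_pair]
        exact ⟨r, -t, by linear_combination ht⟩
      exact (IsLocalRing.maximalIdeal.isMaximal R).ne_top ((Ideal.eq_top_iff_one _).2 h1)
  have hpr : (IsLocalRing.maximalIdeal (R ⧸ Ideal.span {g})).IsPrincipal := ⟨⟨_, hmax⟩⟩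
  exact ((tfae_of_isNoetherianRing_of_isLocalRing_of_isDomain
    (R ⧸ Ideal.span {g})).out 4 0).1 hpr

theorem Good.torsionFree [IsLocalRing R] [IsNoetherianRing R] (h : Good PP c) {g : R}
    (hg : Prime g) :
    Module.IsTorsionFree (R ⧸ Ideal.span {g})
      (lat PP ⧸ (Ideal.span {g} • ⊤ : Submodule R (lat PP))) := by
  have hP : (Ideal.span {g}).IsPrime := (Ideal.span_singleton_prime hg.ne_zero).2 hg
  have : IsDomain (R ⧸ Ideal.span {g}) := inferInstance
  apply Module.IsTorsionFree.of_smul_eq_zero
  intro r m hrm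
  obtain ⟨t, rfl⟩ := Ideal.Quotient.mk_surjective r
  obtain ⟨v, rfl⟩ := Submodule.Quotient.mk_surjective _ m
  rw [Module.Quotient.mk_smul_mk, Submodule.Quotient.mk_eq_zero,
    Submodule.ideal_span_singleton_smul, Submodule.mem_smul_pointwise_iff_exists] at hrm
  obtain ⟨w, -, hw⟩ := hrm
  by_cases ht : g ∣ t
  · left
    rw [Ideal.Quotient.eq_zero_iff_mem, Ideal.mem_span_singleton]
    exact ht
  · right
    have h1 : t • (v : Fin n → K) = g • (w : Fin n → K) := by
      have := congrArg Subtype.val hw
      exact this.symm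
    obtain ⟨w', hw', hv'⟩ := h.sat hg ht v.2 w.2 h1
    rw [Submodule.Quotient.mk_eq_zero, Submodule.ideal_span_singleton_smul,
      Submodule.mem_smul_pointwise_iff_exists]
    exact ⟨⟨w', hw'⟩, Submodule.mem_top, Subtype.ext hv'.symm⟩

theorem Good.exists_basis [IsLocalRing R] [IsNoetherianRing R] (h : Good PP c) {Z g : R}
    (hg : Prime g) (hm : IsLocalRing.maximalIdeal R = Ideal.span {Z, g}) :
    ∃ P : Matrix (Fin n) (Fin n) K, P.det ≠ 0 ∧ (∀ j, (fun i => P i j) ∈ lat PP) ∧
      (∀ v ∈ lat PP, ∃ r : Fin n → R, v = P *ᵥ (fun i => algebraMap R K (r i))) := by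
  classical
  have hP : (Ideal.span {g}).IsPrime := (Ideal.span_singleton_prime hg.ne_zero).2 hg
  have : IsDomain (R ⧸ Ideal.span {g}) := inferInstance
  have : IsPrincipalIdealRing (R ⧸ Ideal.span {g}) := quot_pid hg hm
  have hN : IsNoetherian R (lat PP) := h.noeth
  have hT := h.torsionFree hg
  have hF : IsFractionRing R K := isFrac h.frac
  have hfin : Module.Finite R (lat PP ⧸ (Ideal.span {g} • ⊤ : Submodule R (lat PP))) :=
    inferInstance
  have hfin' : Module.Finite (R ⧸ Ideal.span {g})
      (lat PP ⧸ (Ideal.span {g} • ⊤ : Submodule R (lat PP))) :=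
    Module.Finite.of_restrictScalars_finite R _ _
  obtain ⟨m, b⟩ := Module.basisOfFiniteTypeTorsionFree' (R := R ⧸ Ideal.span {g})
    (M := lat PP ⧸ (Ideal.span {g} • ⊤ : Submodule R (lat PP)))
  choose β hβ using fun j => Submodule.Quotient.mk_surjective _ (b j)
  -- spanning
  have hspan : Submodule.span R (Set.range β) = ⊤ := by
    rw [← top_le_iff]
    apply Submodule.le_of_le_smul_of_le_jacobson_bot (I := Ideal.span {g})
    · exact Module.finite_def.mp inferInstance
    · rw [IsLocalRing.jacobson_eq_maximalIdeal ⊥ bot_ne_top,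
        Ideal.span_singleton_le_iff_mem, hm]
      exact Ideal.subset_span (by simp)
    · intro v _
      have h1 := b.sum_repr (Submodule.Quotient.mk v)
      choose r hr using fun j => Ideal.Quotient.mk_surjective (b.repr (Submodule.Quotient.mk v) j)
      have h2 : (Submodule.Quotient.mk (∑ j, r j • β j) :
          lat PP ⧸ (Ideal.span {g} • ⊤ : Submodule R (lat PP))) = Submodule.Quotient.mk v := by
        rw [← h1, ← Submodule.mkQ_apply, map_sum]
        refine Finset.sum_congr rfl fun j _ => ?_
        rw [← hr j, ← hβ j, Submodule.mkQ_apply, Module.Quotient.mk_smul_mk]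
      rw [Submodule.Quotient.eq] at h2
      rw [Submodule.mem_sup]
      refine ⟨∑ j, r j • β j, ?_, v - ∑ j, r j • β j, ?_, by abel⟩
      · exact Submodule.sum_mem _ fun j _ => Submodule.smul_mem _ _
          (Submodule.subset_span ⟨j, rfl⟩)
      · have := Submodule.neg_mem _ h2
        rwa [neg_sub] at this
  -- independence
  have hg0K : algebraMap R K g ≠ 0 := h.frac.ne_zero.2 hg.ne_zero
  have hstep : ∀ s : Fin m → R, ∑ j, s j • β j = 0 → ∀ j, g ∣ s j := by
    intro s hs j
    have h1 : ∑ j, (Ideal.Quotient.mk (Ideal.span {g}) (s j)) • b j = 0 := by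
      have h2 := congrArg (Submodule.Quotient.mk
        (p := (Ideal.span {g} • ⊤ : Submodule R (lat PP)))) hs
      rw [← Submodule.mkQ_apply, map_sum, Submodule.Quotient.mk_zero] at h2
      rw [← h2]
      refine Finset.sum_congr rfl fun j _ => ?_
      rw [← hβ j, Submodule.mkQ_apply, Module.Quotient.mk_smul_mk]
    have h3 := (Fintype.linearIndependent_iff.1 b.linearIndependent) _ h1 j
    rwa [Ideal.Quotient.eq_zero_iff_mem, Ideal.mem_span_singleton] at h3
  have hpow : ∀ k : ℕ, ∀ s : Fin m → R, ∑ j, s j • β j = 0 → ∀ j, g ^ k ∣ s j := by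
    intro k
    induction k with
    | zero => intro s hs j; simp
    | succ k ih =>
      intro s hs
      choose q hq using hstep s hs
      have h1 : g • ∑ j, q j • β j = 0 := by
        rw [← hs, Finset.smul_sum]
        refine Finset.sum_congr rfl fun j _ => ?_
        rw [smul_smul, ← hq j]
      have h2 : ∑ j, q j • β j = 0 := by
        apply Subtype.ext
        have h3 := congrArg Subtype.val h1
        ext i
        have h4 := congrFun h3 i
        have h5 : algebraMap R K g * ((∑ j, q j • β j : lat PP) : Fin n → K) i = 0 := by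
          rw [← Algebra.smul_def]; exact h4
        exact (mul_eq_zero.1 h5).resolve_left hg0K
      intro j
      rw [hq j, pow_succ']
      exact mul_dvd_mul_left g (ih q h2 j)
  have hind : LinearIndependent R β := by
    rw [Fintype.linearIndependent_iff]
    intro s hs j
    by_contra hsj
    obtain ⟨k, a, ha, hk⟩ := WfDvdMonoid.max_power_factor hsj hg.irreducible
    have := hpow (k + 1) s hs j
    rw [hk, pow_succ, mul_dvd_mul_iff_left (pow_ne_zero _ hg.ne_zero)] at this
    exact ha this
  -- over K
  have hindK : LinearIndependent K (fun j => (β j : Fin n → K)) := by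
    rw [← LinearIndependent.iff_fractionRing R K]
    exact hind.map' (lat PP).subtype (Submodule.ker_subtype _)
  have hmem : ∀ v ∈ lat PP, ∃ r : Fin m → R, v = ∑ j, r j • (β j : Fin n → K) := by
    intro v hv
    have h1 : (⟨v, hv⟩ : lat PP) ∈ Submodule.span R (Set.range β) := by
      rw [hspan]; exact Submodule.mem_top
    obtain ⟨r, hr⟩ := (Submodule.mem_span_range_iff_exists_fun R).1 h1
    refine ⟨r, ?_⟩
    have h2 : ((∑ i, r i • β i : lat PP) : Fin n → K) = v := congrArg Subtype.val hr
    rw [← h2]
    simp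
  have hspanK : ⊤ ≤ Submodule.span K (Set.range (fun j => (β j : Fin n → K))) := by
    intro v _
    obtain ⟨T, hT, hTv⟩ := h.exists_smul_mem v
    obtain ⟨r, hr⟩ := hmem _ hTv
    have hT0 : algebraMap R K T ≠ 0 := h.frac.ne_zero.2 hT
    have h1 : v = (algebraMap R K T)⁻¹ • ∑ j, (algebraMap R K (r j)) • (β j : Fin n → K) := by
      have h2 : ∑ j, (algebraMap R K (r j)) • (β j : Fin n → K) = algebraMap R K T • v := by
        rw [algebraMap_smul, hr]
        refine Finset.sum_congr rfl fun j _ => ?_
        rw [algebraMap_smul]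
      rw [h2, smul_smul, inv_mul_cancel₀ hT0, one_smul]
    rw [h1]
    exact Submodule.smul_mem _ _ (Submodule.sum_mem _ fun j _ => Submodule.smul_mem _ _
      (Submodule.subset_span ⟨j, rfl⟩))
  let bK := Module.Basis.mk hindK hspanK
  have hmn : m = n := by
    have h1 := Module.finrank_eq_card_basis bK
    simpa using h1.symm
  subst hmn
  refine ⟨Matrix.of fun i j => (β j : Fin m → K) i, ?_, ?_, ?_⟩
  · have h1 := (Pi.basisFun K (Fin m)).toMatrix_mul_toMatrix_flip bK
    have h2 : (Pi.basisFun K (Fin m)).toMatrix bK = Matrix.of fun i j => (β j : Fin m → K) i := by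
      ext i j
      simp [Module.Basis.toMatrix_apply, bK]
    rw [← h2]
    exact Matrix.det_ne_zero_of_right_inverse h1
  · intro j
    exact (β j).2
  · intro v hv
    obtain ⟨r, hr⟩ := hmem v hv
    refine ⟨r, ?_⟩
    rw [hr]
    ext i
    rw [Finset.sum_apply, mulVec, dotProduct]
    refine Finset.sum_congr rfl fun j _ => ?_
    rw [Pi.smul_apply, Algebra.smul_def, mul_comm]
    rfl

end

end Pool.Agent.PI.H99
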