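import Pool.Agent.Lib.MP_43d240_ag.PI.Val

/-!
# Project PI, chapter LOC, step 1: the reflexive lattice over a two-dimensional regular local ring
-/

set_option autoImplicit false
set_option linter.unusedVariables false
set_option linter.unusedSectionVars false

open Matrix

namespace Pool.Agent.PI.H99

section integral

variable {R K : Type} [CommRing R] [IsDomain R] [UniqueFactorizationMonoid R] [Field K]
  {φ : R →+* K}

/-- an element which is integral at all primes lies in `R` -/
theorem mem_of_intAt (hφ : FracMap φ) {x : K} (hx : ∀ p : R, Prime p → IntAt φ p x) :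
    ∃ r : R, φ r = x := by
  obtain ⟨a, s, hs, h⟩ := hφ.2 x
  have hs0 : s ≠ 0 := hφ.ne_zero.1 hs
  revert a
  clear hs
  induction s using UniqueFactorizationMonoid.induction_on_prime with
  | h₁ => exact absurd rfl hs0
  | h₂ u hu =>
    intro a h
    obtain ⟨u, rfl⟩ := hu
    refine ⟨(u⁻¹ : Rˣ) * a, ?_⟩
    rw [map_mul, ← h, ← mul_assoc, ← map_mul]
    simp
  | h₃ s p hs0' hp ih =>
    intro a h
    obtain ⟨a', t, ht, h'⟩ := hx p hp
    have hps : p * s * a' = t * a := by
      apply hφ.1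
      simp only [map_mul] at *
      linear_combination (-(φ p * φ s)) * h' + (φ t) * h
    have : p ∣ t * a := ⟨s * a', by rw [← hps]; ring⟩
    obtain ⟨a'', rfl⟩ := (hp.dvd_or_dvd this).resolve_left ht
    refine ih hs0' a'' ?_
    have hp0 : φ p ≠ 0 := hφ.ne_zero.2 hp.ne_zero
    apply mul_left_cancel₀ hp0
    simp only [map_mul] at *
    linear_combination h

/-- common denominators -/
theorem exists_den (hφ : FracMap φ) {ι : Type} [Fintype ι] (f : ι → K) :
    ∃ c : R, c ≠ 0 ∧ ∀ i, ∃ r : R, φ c * f i = φ r := by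
  classical
  choose a s hs h using fun i => hφ.2 (f i)
  refine ⟨∏ i, s i, Finset.prod_ne_zero_iff.2 fun i _ => hφ.ne_zero.1 (hs i), fun i => ?_⟩
  refine ⟨(∏ j ∈ Finset.univ.erase i, s j) * a i, ?_⟩
  rw [← Finset.prod_erase_mul _ _ (Finset.mem_univ i), map_mul, map_mul, mul_assoc, h i]

end integral

section lattice

variable {R K : Type} [CommRing R] [IsDomain R] [UniqueFactorizationMonoid R] [Field K]
  [Algebra R K] {n : ℕ}

/-- the intersection of the local lattices -/
def lat (PP : R → Matrix (Fin n) (Fin n) K) : Submodule R (Fin n → K) where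
  carrier := {v | ∀ p : R, Prime p → ∀ i, IntAt (algebraMap R K) p (((PP p)⁻¹ *ᵥ v) i)}
  add_mem' := by
    intro a b ha hb p hp i
    rw [mulVec_add]
    exact (ha p hp i).add hp (hb p hp i)
  zero_mem' := by
    intro p hp i
    rw [mulVec_zero]
    exact intAt_zero hp
  smul_mem' := by
    intro c x hx p hp i
    have : ((PP p)⁻¹ *ᵥ (c • x)) i = algebraMap R K c * ((PP p)⁻¹ *ᵥ x) i := by
      rw [mulVec_smul, Pi.smul_apply, Algebra.smul_def]
    rw [this]
    exact (intAt_phi hp c).mul hp (hx p hp i)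

theorem mem_lat {PP : R → Matrix (Fin n) (Fin n) K} {v : Fin n → K} :
    v ∈ lat PP ↔ ∀ p : R, Prime p → ∀ i, IntAt (algebraMap R K) p (((PP p)⁻¹ *ᵥ v) i) :=
  Iff.rfl

/-- the finiteness condition on a family of local lattices -/
structure Good (PP : R → Matrix (Fin n) (Fin n) K) (c : R) : Prop where
  frac : FracMap (algebraMap R K)
  c0 : c ≠ 0
  det : ∀ p : R, Prime p → (PP p).det ≠ 0
  assoc : ∀ p q : R, Prime p → Associated p q → PP p = PP q
  den : ∀ p : R, Prime p → ∀ i j, IntAt (algebraMap R K) p (algebraMap R K c * PP p i j)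
  den' : ∀ p : R, Prime p → ∀ i j, IntAt (algebraMap R K) p (algebraMap R K c * (PP p)⁻¹ i j)

variable {PP : R → Matrix (Fin n) (Fin n) K} {c : R}

theorem int_mulVec {p : R} (hp : Prime p) (M : Matrix (Fin n) (Fin n) K) (v : Fin n → K)
    (hM : ∀ i j, IntAt (algebraMap R K) p (M i j)) (hv : ∀ i, IntAt (algebraMap R K) p (v i))
    (i : Fin n) : IntAt (algebraMap R K) p ((M *ᵥ v) i) := by
  rw [mulVec, dotProduct]
  exact intAt_sum hp _ _ fun j _ => (hM i j).mul hp (hv j)

theorem Good.mul_inv (h : Good PP c) {p : R} (hp : Prime p) : PP p * (PP p)⁻¹ = 1 :=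
  Matrix.mul_nonsing_inv _ (isUnit_iff_ne_zero.2 (h.det p hp))

theorem Good.inv_mul (h : Good PP c) {p : R} (hp : Prime p) : (PP p)⁻¹ * PP p = 1 :=
  Matrix.nonsing_inv_mul _ (isUnit_iff_ne_zero.2 (h.det p hp))

/-- elements of the lattice times `c` are integral -/
theorem Good.mem_range (h : Good PP c) {v : Fin n → K} (hv : v ∈ lat PP) (i : Fin n) :
    ∃ r : R, algebraMap R K r = algebraMap R K c * v i := by
  apply mem_of_intAt h.frac
  intro p hp
  have h1 : v = PP p *ᵥ ((PP p)⁻¹ *ᵥ v) := by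
    rw [mulVec_mulVec, h.mul_inv hp, one_mulVec]
  have h2 : algebraMap R K c * v i = ((algebraMap R K c • PP p) *ᵥ ((PP p)⁻¹ *ᵥ v)) i := by
    rw [smul_mulVec, ← h1]; rfl
  rw [h2]
  exact int_mulVec hp _ _ (fun a b => h.den p hp a b) (hv p hp) i

theorem Good.smul_mem (h : Good PP c) (v : Fin n → R) :
    (fun i => algebraMap R K (c * v i)) ∈ lat PP := by
  intro p hp i
  have h2 : (PP p)⁻¹ *ᵥ (fun i => algebraMap R K (c * v i)) =
      (algebraMap R K c • (PP p)⁻¹) *ᵥ (fun i => algebraMap R K (v i)) := by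
    rw [smul_mulVec, ← mulVec_smul]
    congr 1
    ext i
    simp
  rw [h2]
  exact int_mulVec hp _ _ (fun a b => h.den' p hp a b) (fun j => intAt_phi hp _) i

theorem Good.exists_smul_mem (h : Good PP c) (w : Fin n → K) :
    ∃ T : R, T ≠ 0 ∧ T • w ∈ lat PP := by
  obtain ⟨b, hb, hr⟩ := exists_den h.frac w
  choose r hr using hr
  refine ⟨c * b, mul_ne_zero h.c0 hb, ?_⟩
  convert h.smul_mem r using 1
  ext i
  rw [Pi.smul_apply, Algebra.smul_def, map_mul, map_mul, mul_assoc, hr]

theorem Good.exists_prime_smul_mem (h : Good PP c) {p : R} (hp : Prime p) (w : Fin n → K)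
    (hw : ∀ i, IntAt (algebraMap R K) p (((PP p)⁻¹ *ᵥ w) i)) :
    ∃ t : R, ¬ p ∣ t ∧ t • w ∈ lat PP := by
  obtain ⟨T, hT, hTw⟩ := h.exists_smul_mem w
  obtain ⟨m, t, ht, rfl⟩ := WfDvdMonoid.max_power_factor hT hp.irreducible
  refine ⟨t, ht, ?_⟩
  intro q hq i
  have e1 : ((PP q)⁻¹ *ᵥ (t • w)) i = algebraMap R K t * ((PP q)⁻¹ *ᵥ w) i := by
    rw [mulVec_smul, Pi.smul_apply, Algebra.smul_def]
  by_cases hpq : Associated p q
  · rw [e1, ← h.assoc p q hp hpq]
    refine (intAt_phi hq t).mul hq ?_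
    exact (hw i).congr_assoc hpq
  · have h2 := hTw q hq i
    have e2 : ((PP q)⁻¹ *ᵥ ((p ^ m * t) • w)) i =
        algebraMap R K (p ^ m) * ((PP q)⁻¹ *ᵥ (t • w)) i := by
      rw [mul_smul, mulVec_smul, Pi.smul_apply, Algebra.smul_def]
    rw [e2] at h2
    have hqp : ¬ q ∣ p ^ m := by
      intro hd
      have := hq.dvd_of_dvd_pow hd
      exact hpq ((hq.associated_of_dvd hp this).symm)
    have hu : UnitAt (algebraMap R K) q (algebraMap R K (p ^ m)) := (unitAt_phi h.frac hq).2 hqp
    have h3 := (hu.inv h.frac).intAt.mul hq h2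
    rwa [← mul_assoc, inv_mul_cancel₀ (hu.ne_zero h.frac), one_mul] at h3

theorem Good.noeth [IsNoetherianRing R] (h : Good PP c) : IsNoetherian R (lat PP) := by
  let f : (Fin n → R) →ₗ[R] (Fin n → K) :=
    LinearMap.pi fun i => (Algebra.linearMap R K).comp (LinearMap.proj i)
  have hf : ∀ v i, f v i = algebraMap R K (v i) := fun v i => rfl
  have : IsNoetherian R (LinearMap.range f) := inferInstance
  let g : lat PP →ₗ[R] LinearMap.range f :=
    LinearMap.codRestrict (LinearMap.range f) ((LinearMap.lsmul R (Fin n → K) c).comp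
      (lat PP).subtype) (by
        intro v
        choose r hr using h.mem_range v.2
        refine ⟨r, ?_⟩
        ext i
        rw [hf, hr]
        change _ = (c • (v : Fin n → K)) i
        rw [Pi.smul_apply, Algebra.smul_def])
  refine isNoetherian_of_injective g ?_
  intro v w hvw
  have h1 := congrArg Subtype.val hvw
  have h2 : c • (v : Fin n → K) = c • (w : Fin n → K) := h1
  apply Subtype.ext
  have h3 : algebraMap R K c ≠ 0 := h.frac.ne_zero.2 h.c0
  ext i
  have h4 := congrFun h2 i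
  rw [Pi.smul_apply, Pi.smul_apply, Algebra.smul_def, Algebra.smul_def] at h4
  exact mul_left_cancel₀ h3 h4

/-- saturation -/
theorem Good.sat (h : Good PP c) {g t : R} (hg : Prime g) (ht : ¬ g ∣ t) {v w : Fin n → K}
    (hv : v ∈ lat PP) (hw : w ∈ lat PP) (htv : t • v = g • w) :
    ∃ w' ∈ lat PP, v = g • w' := by
  have hg0 : algebraMap R K g ≠ 0 := h.frac.ne_zero.2 hg.ne_zero
  refine ⟨(algebraMap R K g)⁻¹ • v, ?_, ?_⟩
  · intro p hp i
    have e1 : ((PP p)⁻¹ *ᵥ ((algebraMap R K g)⁻¹ • v)) i =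
        (algebraMap R K g)⁻¹ * ((PP p)⁻¹ *ᵥ v) i := by
      rw [mulVec_smul]; rfl
    rw [e1]
    by_cases hpg : p ∣ g
    · have hass : Associated p g := hp.associated_of_dvd hg hpg
      have hpt : ¬ p ∣ t := fun hd => ht ((hass.dvd_iff_dvd_left).1 hd)
      have hu : UnitAt (algebraMap R K) p (algebraMap R K t) := (unitAt_phi h.frac hp).2 hpt
      have h2 := congrArg (fun x => ((PP p)⁻¹ *ᵥ x) i) htv
      simp only [mulVec_smul] at h2
      rw [Pi.smul_apply, Pi.smul_apply, Algebra.smul_def, Algebra.smul_def] at h2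
      have h3 : (algebraMap R K g)⁻¹ * ((PP p)⁻¹ *ᵥ v) i =
          (algebraMap R K t)⁻¹ * ((PP p)⁻¹ *ᵥ w) i := by
        have ht0 := hu.ne_zero h.frac
        field_simp
        linear_combination h2
      rw [h3]
      exact (hu.inv h.frac).intAt.mul hp (hw p hp i)
    · have hu : UnitAt (algebraMap R K) p (algebraMap R K g) := (unitAt_phi h.frac hp).2 hpg
      exact (hu.inv h.frac).intAt.mul hp (hv p hp i)
  · ext i
    rw [Pi.smul_apply, Algebra.smul_def, Pi.smul_apply, smul_eq_mul, ← mul_assoc,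
      mul_inv_cancel₀ hg0, one_mul]

end lattice

end Pool.Agent.PI.H99
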