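import Pool.Agent.Lib.MP_43d240_ag.PI.Base

/-!
# Project PI, chapter LOC: statement of step 1 (the reflexive lattice in matrix form)
-/

set_option autoImplicit false

open Matrix

namespace Pool.Agent.PI.H99

/-- Step 1: one matrix `P` over `K` which is locally equivalent to the given local lattices. -/
def Step1Statement : Prop :=
  ∀ (R K : Type) [CommRing R] [IsDomain R] [IsLocalRing R] [IsNoetherianRing R]
    [UniqueFactorizationMonoid R] [Field K] (φ : R →+* K), FracMap φ →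
    ∀ Z g : R, Prime Z → Prime g → ¬ Z ∣ g → IsLocalRing.maximalIdeal R = Ideal.span {Z, g} →
    ∀ d : Fin 6 → K, (∀ i, d i ≠ 0) →
    (∀ p : R, Prime p → ¬ Associated p Z → ¬ Associated p g → Uni φ p (diagonal d)) →
    ∀ PZ Pg : Matrix (Fin 6) (Fin 6) K, PZ.det ≠ 0 → Pg.det ≠ 0 →
    (∀ i j, IntAt φ Z ((PZᵀ * diagonal d * PZ) i j)) →
    (∀ i j, IntAt φ g ((Pgᵀ * diagonal d * Pg) i j)) →
    (∃ u : K, UnitAt φ Z u ∧ (PZᵀ * diagonal d * PZ).det = φ Z ^ 2 * u) →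
    ∀ j : ℕ, (∃ u : K, UnitAt φ g u ∧ (Pgᵀ * diagonal d * Pg).det = φ g ^ j * u) →
    ∃ (P : Matrix (Fin 6) (Fin 6) K) (G QZ Qg : Matrix (Fin 6) (Fin 6) R) (tZ tg u : R),
      P.det ≠ 0 ∧ Pᵀ * diagonal d * P = G.map φ ∧ IsUnit u ∧ G.det = u * Z ^ 2 * g ^ j ∧
      ¬ Z ∣ tZ ∧ ¬ Z ∣ QZ.det ∧ φ tZ • PZ = P * QZ.map φ ∧
      ¬ g ∣ tg ∧ ¬ g ∣ Qg.det ∧ φ tg • Pg = P * Qg.map φ

end Pool.Agent.PI.H99
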