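import Pool.Agent.Lib.MP_43d240_ag.H99.LatBasis
import Pool.Agent.Lib.MP_43d240_ag.H99.Step1Def

/-!
# Project PI, chapter LOC, step 1 in matrix form
-/

set_option autoImplicit false
set_option linter.unusedVariables false
set_option linter.unusedSectionVars false

open Matrix

namespace Pool.Agent.PI.H99

section

variable {R K : Type} [CommRing R] [IsDomain R] [UniqueFactorizationMonoid R] [Field K]
  [Algebra R K] {n : ℕ} {PP : R → Matrix (Fin n) (Fin n) K} {c : R}

theorem int_mul {p : R} (hp : Prime p) (A B : Matrix (Fin n) (Fin n) K)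
    (hA : ∀ i j, IntAt (algebraMap R K) p (A i j)) (hB : ∀ i j, IntAt (algebraMap R K) p (B i j))
    (i j : Fin n) : IntAt (algebraMap R K) p ((A * B) i j) := by
  rw [Matrix.mul_apply]
  exact intAt_sum hp _ _ fun k _ => (hA i k).mul hp (hB k j)

theorem int_det {p : R} (hp : Prime p) (A : Matrix (Fin n) (Fin n) K)
    (hA : ∀ i j, IntAt (algebraMap R K) p (A i j)) : IntAt (algebraMap R K) p A.det :=
  intAt_det hp A hA

theorem unit_of_mul (hφ : FracMap (algebraMap R K)) {p : R} (hp : Prime p) {x y : K}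
    (hx : IntAt (algebraMap R K) p x) (hy : IntAt (algebraMap R K) p y)
    (h : UnitAt (algebraMap R K) p (x * y)) : UnitAt (algebraMap R K) p y := by
  have h0 := h.ne_zero hφ
  have hx0 : x ≠ 0 := left_ne_zero_of_mul h0
  have hy0 : y ≠ 0 := right_ne_zero_of_mul h0
  rw [unitAt_iff hφ hp]
  refine ⟨hy0, hy, ?_⟩
  have h1 := hx.mul hp (h.inv hφ).intAt
  have : y⁻¹ = x * (x * y)⁻¹ := by field_simp
  rwa [this]

/-- the local comparison at `p` -/
theorem Good.compare (h : Good PP c) (P : Matrix (Fin n) (Fin n) K) (hdet : P.det ≠ 0)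
    (hcol : ∀ j, (fun i => P i j) ∈ lat PP)
    (hgen : ∀ v ∈ lat PP, ∃ r : Fin n → R, v = P *ᵥ (fun i => algebraMap R K (r i)))
    {p : R} (hp : Prime p) :
    (∀ i j, IntAt (algebraMap R K) p (((PP p)⁻¹ * P) i j)) ∧
    UnitAt (algebraMap R K) p ((PP p)⁻¹ * P).det ∧
    ∃ (t : R) (Q : Matrix (Fin n) (Fin n) R), ¬ p ∣ t ∧ ¬ p ∣ Q.det ∧
      algebraMap R K t • PP p = P * Q.map (algebraMap R K) := by
  have h1 : ∀ i j, IntAt (algebraMap R K) p (((PP p)⁻¹ * P) i j) := fun i j => hcol j p hp i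
  have hcols : ∀ j, ∃ t : R, ¬ p ∣ t ∧ t • (fun i => PP p i j) ∈ lat PP := by
    intro j
    apply h.exists_prime_smul_mem hp
    intro i
    have e1 : ((PP p)⁻¹ *ᵥ (fun i => PP p i j)) i = ((PP p)⁻¹ * PP p) i j := rfl
    rw [e1, h.inv_mul hp, Matrix.one_apply]
    split_ifs
    · exact intAt_one hp
    · exact intAt_zero hp
  choose t ht htm using hcols
  have htt : ¬ p ∣ ∏ j, t j := by
    intro hd
    obtain ⟨j, -, hj⟩ := (Prime.dvd_finsetProd_iff hp _).1 hd
    exact ht j hj
  have hcols2 : ∀ j, ∃ r : Fin n → R, (∏ j, t j) • (fun i => PP p i j) =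
      P *ᵥ (fun i => algebraMap R K (r i)) := by
    intro j
    apply hgen
    rw [← Finset.prod_erase_mul _ _ (Finset.mem_univ j), mul_smul]
    exact (lat PP).smul_mem _ (htm j)
  choose r hr using hcols2
  have hQ : algebraMap R K (∏ j, t j) • PP p =
      P * (Matrix.of fun i j => r j i).map (algebraMap R K) := by
    ext i j
    have h2 := congrFun (hr j) i
    rw [Pi.smul_apply, Algebra.smul_def] at h2
    rw [Matrix.smul_apply, smul_eq_mul, h2]
    rfl
  have hM : ((PP p)⁻¹ * P) * (Matrix.of fun i j => r j i).map (algebraMap R K) =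
      algebraMap R K (∏ j, t j) • 1 := by
    rw [Matrix.mul_assoc, ← hQ, Matrix.mul_smul, h.inv_mul hp]
  have hMd : ((PP p)⁻¹ * P).det * algebraMap R K (Matrix.of fun i j => r j i).det =
      (algebraMap R K (∏ j, t j)) ^ n := by
    have h3 := congrArg Matrix.det hM
    rw [det_mul, det_smul, det_one, mul_one, Fintype.card_fin] at h3
    rw [← h3, RingHom.map_det]
    rfl
  have hu : UnitAt (algebraMap R K) p (((PP p)⁻¹ * P).det *
      algebraMap R K (Matrix.of fun i j => r j i).det) := by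
    rw [hMd]
    exact ((unitAt_phi h.frac hp).2 htt).pow hp n
  refine ⟨h1, ?_, ∏ j, t j, Matrix.of fun i j => r j i, htt, ?_, hQ⟩
  · rw [mul_comm] at hu
    exact unit_of_mul h.frac hp (intAt_phi hp _) (int_det hp _ h1) hu
  · exact (unitAt_phi h.frac hp).1
      (unit_of_mul h.frac hp (int_det hp _ h1) (intAt_phi hp _) hu)

end

section family

variable {R K : Type} [CommRing R] [IsDomain R] [UniqueFactorizationMonoid R] [Field K]
  (φ : R →+* K)

/-- the representative of the class of associated elements -/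
noncomputable def rep (p : R) : R := Quot.out (Associates.mk p)

theorem rep_assoc (p : R) : Associated (rep p) p :=
  Associates.mk_quot_out p

theorem rep_eq {p q : R} (h : Associated p q) : rep p = rep q := by
  unfold rep
  rw [Associates.mk_eq_mk_iff_associated.2 h]

theorem prime_rep {p : R} (hp : Prime p) : Prime (rep p) :=
  (rep_assoc p).symm.prime hp

open Classical in
/-- the family of local lattices -/
noncomputable def FF (Z g : R) (d : Fin 6 → K) (PZ Pg : Matrix (Fin 6) (Fin 6) K) (r : R) :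
    Matrix (Fin 6) (Fin 6) K :=
  if Associated r Z then PZ else if Associated r g then Pg else
    if h : ¬ (∀ i, UnitAt φ r (d i)) ∧ Uni φ r (diagonal d) then Classical.choose h.2 else 1

variable {φ} {Z g : R} {d : Fin 6 → K} {PZ Pg : Matrix (Fin 6) (Fin 6) K}

theorem FF_Z {r : R} (h : Associated r Z) : FF φ Z g d PZ Pg r = PZ := by
  unfold FF; rw [if_pos h]

theorem FF_g {r : R} (h : ¬ Associated r Z) (h2 : Associated r g) : FF φ Z g d PZ Pg r = Pg := by
  unfold FF; rw [if_neg h, if_pos h2]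

theorem FF_one {r : R} (h : ¬ Associated r Z) (h2 : ¬ Associated r g)
    (h3 : ∀ i, UnitAt φ r (d i)) : FF φ Z g d PZ Pg r = 1 := by
  unfold FF
  rw [if_neg h, if_neg h2, dif_neg]
  exact fun h4 => h4.1 h3

theorem FF_other (hφ : FracMap φ) {r : R} (hr : Prime r) (h : ¬ Associated r Z)
    (h2 : ¬ Associated r g) (hU : Uni φ r (diagonal d)) :
    (FF φ Z g d PZ Pg r).det ≠ 0 ∧
    (∀ i j, IntAt φ r (((FF φ Z g d PZ Pg r)ᵀ * diagonal d * FF φ Z g d PZ Pg r) i j)) ∧
    UnitAt φ r ((FF φ Z g d PZ Pg r)ᵀ * diagonal d * FF φ Z g d PZ Pg r).det := by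
  by_cases h3 : ∀ i, UnitAt φ r (d i)
  · rw [FF_one h h2 h3]
    refine ⟨by simp, ?_, ?_⟩
    · intro i j
      rw [transpose_one, Matrix.one_mul, Matrix.mul_one, Matrix.diagonal_apply]
      split_ifs
      · exact (h3 i).intAt
      · exact intAt_zero hr
    · rw [transpose_one, Matrix.one_mul, Matrix.mul_one, det_diagonal]
      exact unitAt_prod hr _ _ fun i _ => h3 i
  · have h4 : ¬ (∀ i, UnitAt φ r (d i)) ∧ Uni φ r (diagonal d) := ⟨h3, hU⟩
    have h5 : FF φ Z g d PZ Pg r = Classical.choose h4.2 := by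
      unfold FF
      rw [if_neg h, if_neg h2, dif_pos h4]
    rw [h5]
    exact Classical.choose_spec h4.2

end family

theorem step1 : Step1Statement := by
  intro R K _ _ _ _ _ _ φ hφ Z g hZ hg hZg hm d hd hU PZ Pg hPZ hPg hPZi hPgi hPZd j hPgd
  let _ : Algebra R K := φ.toAlgebra
  have hφ' : FracMap (algebraMap R K) := hφ
  let PP : R → Matrix (Fin 6) (Fin 6) K := fun p => FF φ Z g d PZ Pg (rep p)
  have hgZ : ¬ Associated g Z := fun h => hZg h.symm.dvd
  have hU' : ∀ p : R, Prime p → ¬ Associated (rep p) Z → ¬ Associated (rep p) g →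
      Uni φ (rep p) (diagonal d) := fun p hp h1 h2 => hU _ (prime_rep hp) h1 h2
  have hdet0 : ∀ p : R, Prime p → (PP p).det ≠ 0 := by
    intro p hp
    by_cases h1 : Associated (rep p) Z
    · simp only [PP, FF_Z h1]; exact hPZ
    by_cases h2 : Associated (rep p) g
    · simp only [PP, FF_g h1 h2]; exact hPg
    · exact (FF_other hφ (prime_rep hp) h1 h2 (hU' p hp h1 h2)).1
  have hint : ∀ p : R, Prime p → ∀ i j, IntAt φ p (((PP p)ᵀ * diagonal d * PP p) i j) := by
    intro p hp i k
    by_cases h1 : Associated (rep p) Z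
    · simp only [PP, FF_Z h1]
      exact (hPZi i k).congr_assoc (h1.symm.trans (rep_assoc p))
    by_cases h2 : Associated (rep p) g
    · simp only [PP, FF_g h1 h2]
      exact (hPgi i k).congr_assoc (h2.symm.trans (rep_assoc p))
    · exact ((FF_other hφ (prime_rep hp) h1 h2 (hU' p hp h1 h2)).2.1 i k).congr_assoc (rep_assoc p)
  have hassoc : ∀ p q : R, Prime p → Associated p q → PP p = PP q := by
    intro p q _ h
    simp only [PP, rep_eq h]
  -- denominators
  have hden : ∀ q : R, ∃ e : R, e ≠ 0 ∧ (∀ i k, ∃ r : R, φ e * PP q i k = φ r) ∧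
      (∀ i k, ∃ r : R, φ e * (PP q)⁻¹ i k = φ r) := by
    intro q
    obtain ⟨e, he, h⟩ := exists_den hφ
      (fun x : (Fin 6 × Fin 6) ⊕ (Fin 6 × Fin 6) =>
        Sum.elim (fun y => PP q y.1 y.2) (fun y => (PP q)⁻¹ y.1 y.2) x)
    exact ⟨e, he, fun i k => h (Sum.inl (i, k)), fun i k => h (Sum.inr (i, k))⟩
  choose den hden0 hden1 hden2 using hden
  choose a b hb hab using fun i => hφ.2 (d i)
  have hb0 : ∀ i, b i ≠ 0 := fun i => hφ.ne_zero.1 (hb i)
  have ha0 : ∀ i, a i ≠ 0 := by
    intro i h0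
    have := hab i
    rw [h0, map_zero] at this
    exact mul_ne_zero (hb i) (hd i) this
  let c0 : R := Z * g * ∏ i, a i * b i
  have hc0 : c0 ≠ 0 := mul_ne_zero (mul_ne_zero hZ.ne_zero hg.ne_zero)
    (Finset.prod_ne_zero_iff.2 fun i _ => mul_ne_zero (ha0 i) (hb0 i))
  have hone : ∀ p : R, Prime p → ¬ p ∣ c0 → PP p = 1 := by
    intro p hp hpc
    have hpZ : ¬ Associated (rep p) Z := by
      intro h
      apply hpc
      exact Dvd.dvd.mul_right (Dvd.dvd.mul_right ((rep_assoc p).symm.trans h).dvd _) _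
    have hpg : ¬ Associated (rep p) g := by
      intro h
      apply hpc
      exact Dvd.dvd.mul_right (Dvd.dvd.mul_left ((rep_assoc p).symm.trans h).dvd _) _
    apply FF_one hpZ hpg
    intro i
    have h1 : ¬ p ∣ a i * b i := fun h => hpc (Dvd.dvd.mul_left
      (h.trans (Finset.dvd_prod_of_mem (fun i => a i * b i) (Finset.mem_univ i))) _)
    have h2 : UnitAt φ p (d i) := ⟨a i, b i, fun h => h1 (Dvd.dvd.mul_right h _),
      fun h => h1 (Dvd.dvd.mul_left h _), hab i⟩
    exact h2.congr_assoc (rep_assoc p).symm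
  let c : R := ((UniqueFactorizationMonoid.factors c0).map den).prod
  have hc : c ≠ 0 := by
    apply Multiset.prod_ne_zero
    intro h
    obtain ⟨q, -, hq⟩ := Multiset.mem_map.1 h
    exact hden0 q hq
  have hcd : ∀ p : R, Prime p → p ∣ c0 → ∃ q : R, PP p = PP q ∧ den q ∣ c := by
    intro p hp hpc
    obtain ⟨q, hq, hpq⟩ := UniqueFactorizationMonoid.exists_mem_factors_of_dvd hc0
      hp.irreducible hpc
    exact ⟨q, hassoc p q hp hpq, Multiset.dvd_prod (Multiset.mem_map_of_mem _ hq)⟩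
  have hgood : Good PP c := by
    refine ⟨hφ', hc, hdet0, hassoc, ?_, ?_⟩
    · intro p hp i k
      by_cases hpc : p ∣ c0
      · obtain ⟨q, hq, s, hs⟩ := hcd p hp hpc
        obtain ⟨r, hr⟩ := hden1 q i k
        have : algebraMap R K c * PP p i k = φ (s * r) := by
          rw [hq, hs, map_mul, map_mul, ← hr]
          change φ (den q) * φ s * _ = _
          ring
        rw [this]
        exact intAt_phi hp _
      · rw [hone p hp hpc, Matrix.one_apply]
        refine (intAt_phi hp c).mul hp ?_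
        split_ifs
        · exact intAt_one hp
        · exact intAt_zero hp
    · intro p hp i k
      by_cases hpc : p ∣ c0
      · obtain ⟨q, hq, s, hs⟩ := hcd p hp hpc
        obtain ⟨r, hr⟩ := hden2 q i k
        have : algebraMap R K c * (PP p)⁻¹ i k = φ (s * r) := by
          rw [hq, hs, map_mul, map_mul, ← hr]
          change φ (den q) * φ s * _ = _
          ring
        rw [this]
        exact intAt_phi hp _
      · rw [hone p hp hpc, inv_one, Matrix.one_apply]
        refine (intAt_phi hp c).mul hp ?_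
        split_ifs
        · exact intAt_one hp
        · exact intAt_zero hp
  obtain ⟨P, hPd, hcol, hgen⟩ := hgood.exists_basis hg hm
  -- the comparison of forms
  have hform : ∀ p : R, Prime p → Pᵀ * diagonal d * P =
      ((PP p)⁻¹ * P)ᵀ * ((PP p)ᵀ * diagonal d * PP p) * ((PP p)⁻¹ * P) := by
    intro p hp
    have h1 : PP p * ((PP p)⁻¹ * P) = P := by
      rw [← Matrix.mul_assoc, hgood.mul_inv hp, Matrix.one_mul]
    have h2 : ((PP p)⁻¹ * P)ᵀ * (PP p)ᵀ = Pᵀ := by
      rw [← transpose_mul, h1]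
    calc Pᵀ * diagonal d * P = (((PP p)⁻¹ * P)ᵀ * (PP p)ᵀ) * diagonal d *
          (PP p * ((PP p)⁻¹ * P)) := by rw [h1, h2]
      _ = _ := by simp only [Matrix.mul_assoc]
  have hG : ∀ i k, ∃ r : R, φ r = (Pᵀ * diagonal d * P) i k := by
    intro i k
    apply mem_of_intAt hφ
    intro p hp
    have h1 := (hgood.compare P hPd hcol hgen hp).1
    rw [hform p hp]
    exact int_mul hp _ _ (int_mul hp _ _ (fun a b => h1 b a) (hint p hp)) h1 i k
  choose G hG using hG
  have hGm : Pᵀ * diagonal d * P = (Matrix.of G).map φ := by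
    ext i k
    rw [← hG]
    rfl
  have hdetform : ∀ p : R, Prime p → φ (Matrix.of G).det =
      ((PP p)⁻¹ * P).det ^ 2 * ((PP p)ᵀ * diagonal d * PP p).det := by
    intro p hp
    have h1 : (Pᵀ * diagonal d * P).det = φ (Matrix.of G).det := by
      rw [hGm, RingHom.map_det]
      rfl
    rw [← h1, hform p hp, det_mul, det_mul, det_transpose]
    ring
  have hPPZ : PP Z = PZ := FF_Z (rep_assoc Z)
  have hPPg : PP g = Pg := by
    apply FF_g _ (rep_assoc g)
    intro h
    exact hgZ ((rep_assoc g).symm.trans h)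
  have hZ0 : φ Z ≠ 0 := hφ.ne_zero.2 hZ.ne_zero
  have hg0 : φ g ≠ 0 := hφ.ne_zero.2 hg.ne_zero
  have hxu : ∀ p : R, Prime p → UnitAt φ p (φ (Matrix.of G).det / (φ Z ^ 2 * φ g ^ j)) := by
    intro p hp
    have hcp := (hgood.compare P hPd hcol hgen hp).2.1
    by_cases h1 : Associated p Z
    · obtain ⟨u, hu, hud⟩ := hPZd
      have h2 : ((PP Z)⁻¹ * P).det ^ 2 * u * (φ g ^ j)⁻¹ =
          φ (Matrix.of G).det / (φ Z ^ 2 * φ g ^ j) := by
        rw [hdetform Z hZ, hPPZ, hud]
        field_simp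
      rw [← h2]
      have h3 : UnitAt φ Z (((PP Z)⁻¹ * P).det) := (hgood.compare P hPd hcol hgen hZ).2.1
      have h4 : UnitAt φ Z (φ g) := (unitAt_phi hφ hZ).2 hZg
      exact (((h3.pow hZ 2).mul hZ hu).mul hZ ((h4.pow hZ j).inv hφ)).congr_assoc h1.symm
    by_cases h2 : Associated p g
    · obtain ⟨u, hu, hud⟩ := hPgd
      have h3 : ((PP g)⁻¹ * P).det ^ 2 * u * (φ Z ^ 2)⁻¹ =
          φ (Matrix.of G).det / (φ Z ^ 2 * φ g ^ j) := by
        rw [hdetform g hg, hPPg, hud]
        field_simp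
      rw [← h3]
      have h4 : UnitAt φ g (((PP g)⁻¹ * P).det) := (hgood.compare P hPd hcol hgen hg).2.1
      have h5 : UnitAt φ g (φ Z) := by
        apply (unitAt_phi hφ hg).2
        intro hgd
        exact hgZ (hg.associated_of_dvd hZ hgd)
      exact (((h4.pow hg 2).mul hg hu).mul hg ((h5.pow hg 2).inv hφ)).congr_assoc h2.symm
    · have h1' : ¬ Associated (rep p) Z := fun h => h1 ((rep_assoc p).symm.trans h)
      have h2' : ¬ Associated (rep p) g := fun h => h2 ((rep_assoc p).symm.trans h)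
      have h3 : UnitAt φ p ((PP p)ᵀ * diagonal d * PP p).det :=
        (FF_other hφ (prime_rep hp) h1' h2' (hU' p hp h1' h2')).2.2.congr_assoc (rep_assoc p)
      have h4 : UnitAt φ p (φ Z) := (unitAt_phi hφ hp).2 fun h => h1 (hp.associated_of_dvd hZ h)
      have h5 : UnitAt φ p (φ g) := (unitAt_phi hφ hp).2 fun h => h2 (hp.associated_of_dvd hg h)
      have h6 : UnitAt φ p (φ (Matrix.of G).det) := by
        rw [hdetform p hp]
        have h7 : UnitAt φ p (((PP p)⁻¹ * P).det) := hcp
        exact (h7.pow hp 2).mul hp h3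
      exact h6.div hφ hp ((h4.pow hp 2).mul hp (h5.pow hp j))
  obtain ⟨u, hu⟩ := mem_of_intAt hφ fun p hp => (hxu p hp).intAt
  obtain ⟨u', hu'⟩ := mem_of_intAt hφ fun p hp => ((hxu p hp).inv hφ).intAt
  have huu : IsUnit u := by
    apply IsUnit.of_mul_eq_one u'
    apply hφ.1
    rw [map_mul, hu, hu', map_one]
    apply mul_inv_cancel₀
    exact (hxu Z hZ).ne_zero hφ
  obtain ⟨-, -, tZ, QZ, htZ, hQZ, hQZe⟩ := hgood.compare P hPd hcol hgen hZ
  obtain ⟨-, -, tg, Qg, htg, hQg, hQge⟩ := hgood.compare P hPd hcol hgen hg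
  rw [hPPZ] at hQZe
  rw [hPPg] at hQge
  refine ⟨P, Matrix.of G, QZ, Qg, tZ, tg, u, hPd, hGm, huu, ?_, htZ, hQZ, hQZe, htg, hQg, hQge⟩
  apply hφ.1
  simp only [map_mul, map_pow]
  rw [hu]
  field_simp

end Pool.Agent.PI.H99
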